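import Mathlib
set_option linter.unusedSectionVars false

namespace Pool.Agent.H.MP_542002_pr
open Finset Filter Topology SimpleGraph

lemma ulim (u : ℕ → ℝ) (a b : ℝ) (h : ∀ n, u n ∈ Set.Icc a b) :
    ∃ l ∈ Set.Icc a b, Tendsto u (hyperfilter ℕ) (𝓝 l) := by
  obtain ⟨l, hl, h2⟩ := (isCompact_Icc (a := a) (b := b)).ultrafilter_le_nhds
    ((hyperfilter ℕ).map u) (by
      rw [Ultrafilter.coe_map, le_principal_iff, Filter.mem_map]
      exact univ_mem' h)
  exact ⟨l, hl, h2⟩

variable {V : Type} [DecidableEq V] (G : SimpleGraph V) [G.LocallyFinite]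

def W (o : V) : ℕ → V → ℕ
  | 0, v => if v = o then 1 else 0
  | n + 1, v => ∑ w ∈ G.neighborFinset v, W o n w

lemma W_card (o : V) (n : ℕ) (v : V) : Nat.card {p : G.Walk v o // p.length = n} = W G o n v := by
  rw [Nat.card_eq_fintype_card]
  refine (card_set_walk_length_eq G v o n).trans ?_
  induction n generalizing v with
  | zero => obtain rfl | h := eq_or_ne v o <;> simp [finsetWalkLength, W, *]
  | succ n ih =>
    simp only [finsetWalkLength, W]
    rw [Finset.card_biUnion]
    · simp only [card_map, ih, neighborFinset_def]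
      exact (Finset.sum_set_coe (G.neighborSet v) (f := fun w => W G o n w))
    · rintro ⟨x, hx⟩ - ⟨y, hy⟩ - hxy
      rw [Function.onFun, disjoint_iff_inf_le]
      intro p hp
      simp only [inf_eq_inter, mem_inter, Finset.mem_map] at hp
      obtain ⟨⟨px, _, rfl⟩, ⟨py, hpy, hp⟩⟩ := hp
      cases hp
      simp at hxy

lemma W_le {d : ℕ} (hd : G.IsRegularOfDegree d) (o : V) (n : ℕ) (v : V) : W G o n v ≤ d ^ n := by
  induction n generalizing v with
  | zero => simp only [W]; split_ifs <;> simp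
  | succ n ih =>
    rw [W, pow_succ']
    refine (sum_le_card_nsmul _ _ _ fun w _ => ih w).trans ?_
    rw [card_neighborFinset_eq_degree, hd v, smul_eq_mul]

lemma W_adj (o : V) (n : ℕ) {v w : V} (h : G.Adj v w) : W G o n w ≤ W G o (n + 1) v := by
  rw [W]
  exact single_le_sum (f := fun w => W G o n w) (fun _ _ => Nat.zero_le _) (by simpa using h)

lemma summ {d : ℕ} (hd : G.IsRegularOfDegree d) (hd0 : 0 < d) (o : V) (ρ : ℝ) (hρ : 0 ≤ ρ)
    (h : limsup (fun n : ℕ => ((Nat.card {p : G.Walk o o // p.length = n} : ℝ) / (d : ℝ) ^ n) ^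
      ((1 : ℝ) / (n : ℝ))) atTop = ρ / d) (lam : ℝ) (hl : ρ < lam) :
    Summable fun n => (W G o n o : ℝ) / lam ^ n := by
  have hdp : (0 : ℝ) < d := by exact_mod_cast hd0
  simp only [W_card] at h
  obtain ⟨μ, h1, h2⟩ := exists_between hl
  have hμ : 0 < μ := lt_of_le_of_lt hρ h1
  have hl0 : 0 < lam := hμ.trans h2
  have ev := eventually_lt_of_limsup_lt (h.trans_lt (div_lt_div_of_pos_right h1 hdp))
    (isBoundedUnder_of ⟨1, fun n => by
      apply Real.rpow_le_one (by positivity) _ (by positivity)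
      rw [div_le_one (by positivity)]
      exact_mod_cast W_le G hd o n o⟩)
  refine Summable.of_norm_bounded_eventually_nat
    (summable_geometric_of_lt_one (r := μ / lam) (by positivity) ((div_lt_one hl0).2 h2)) ?_
  filter_upwards [ev, eventually_gt_atTop 0] with n hn hn0
  rw [Real.norm_of_nonneg (by positivity), div_pow]
  apply div_le_div_of_nonneg_right _ (by positivity)
  have h3 := pow_le_pow_left₀ (by positivity) hn.le n
  rw [one_div, Real.rpow_inv_natCast_pow (by positivity) hn0.ne', div_pow] at h3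
  exact (div_le_div_iff_of_pos_right (by positivity)).1 h3

lemma exists_u (hc : G.Connected) (o : V) (lam : ℝ) (hl : 0 < lam)
    (h : Summable fun n => (W G o n o : ℝ) / lam ^ n) :
    ∃ u : V → ℝ, u o = 1 ∧ (∀ v, 0 ≤ u v) ∧ ∀ v, ∑ w ∈ G.neighborFinset v, u w ≤ lam * u v := by
  have st : ∀ v w, G.Adj v w → Summable (fun n => (W G o n v : ℝ) / lam ^ n) →
      Summable fun n => (W G o n w : ℝ) / lam ^ n := by
    intro v w hvw hs
    refine Summable.of_nonneg_of_le (fun n => by positivity) (fun n => ?_)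
      (((summable_nat_add_iff 1).2 hs).mul_left lam)
    have : (W G o n w : ℝ) ≤ W G o (n + 1) v := by exact_mod_cast W_adj G o n hvw
    rw [pow_succ]
    calc _ ≤ (W G o (n + 1) v : ℝ) / lam ^ n := by gcongr
      _ = _ := by field_simp
  have all : ∀ v, Summable fun n => (W G o n v : ℝ) / lam ^ n := by
    intro v
    obtain ⟨p⟩ := hc o v
    have : ∀ (a b : V) (p : G.Walk a b), Summable (fun n => (W G o n a : ℝ) / lam ^ n) →
        Summable fun n => (W G o n b : ℝ) / lam ^ n := by
      intro a b p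
      induction p with
      | nil => exact id
      | cons hab p ih => exact fun hs => ih (st _ _ hab hs)
    exact this o v p h
  set u : V → ℝ := fun v => ∑' n, (W G o n v : ℝ) / lam ^ n with hu
  have u0 : ∀ v, 0 ≤ u v := fun v => tsum_nonneg fun n => by positivity
  have uo : 0 < u o := by
    have := (all o).le_tsum 0 (fun n _ => by positivity)
    simp only [W, if_true, pow_zero] at this
    simp only [hu]; push_cast at this; linarith
  refine ⟨fun v => u v / u o, div_self uo.ne', fun v => div_nonneg (u0 v) uo.le, fun v => ?_⟩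
  rw [← sum_div, ← mul_div_assoc]
  apply div_le_div_of_nonneg_right _ uo.le
  simp only [hu]
  rw [← Summable.tsum_finsetSum fun w _ => all w, (all v).tsum_eq_zero_add, mul_add,
    ← tsum_mul_left]
  have e : ∀ n, ∑ w ∈ G.neighborFinset v, (W G o n w : ℝ) / lam ^ n =
      lam * ((W G o (n + 1) v : ℝ) / lam ^ (n + 1)) := by
    intro n
    rw [← sum_div, W, pow_succ]; push_cast; field_simp
  simp only [e]
  have : 0 ≤ lam * ((W G o 0 v : ℝ) / lam ^ 0) := by positivity
  linarith

lemma u_adj {u : V → ℝ} {lam : ℝ} (u0 : ∀ v, 0 ≤ u v)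
    (h : ∀ v, ∑ w ∈ G.neighborFinset v, u w ≤ lam * u v) {v w : V} (hvw : G.Adj v w) :
    u w ≤ lam * u v :=
  (single_le_sum (f := u) (fun w _ => u0 w) (by simpa using hvw)).trans (h v)

lemma u_walk {u : V → ℝ} {lam : ℝ} (hl : 0 ≤ lam) (u0 : ∀ v, 0 ≤ u v)
    (h : ∀ v, ∑ w ∈ G.neighborFinset v, u w ≤ lam * u v) {v w : V} (p : G.Walk v w) :
    u w ≤ lam ^ p.length * u v := by
  induction p with
  | nil => simp
  | cons hab p ih =>
    rw [Walk.length_cons, pow_succ, mul_assoc]
    exact ih.trans (mul_le_mul_of_nonneg_left (u_adj G u0 h hab) (by positivity))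

theorem exists_f (hc : G.Connected) (o : V) (ρ : ℝ) (hρ : 0 ≤ ρ)
    (h : ∀ lam, ρ < lam → Summable fun n => (W G o n o : ℝ) / lam ^ n) :
    ∃ f : V → ℝ, (∀ v, 0 < f v) ∧ ∀ v, ∑ w ∈ G.neighborFinset v, f w ≤ ρ * f v := by
  have hj : ∀ j : ℕ, (0 : ℝ) < 1 / ((j : ℝ) + 1) := fun j => by positivity
  choose u u1 u0 hu using fun j : ℕ => exists_u G hc o (ρ + 1 / ((j : ℝ) + 1))
    (by linarith [hj j]) (h _ (by linarith [hj j]))
  have hu' : ∀ j v, ∑ w ∈ G.neighborFinset v, u j w ≤ (ρ + 1) * u j v := fun j v =>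
    (hu j v).trans (mul_le_mul_of_nonneg_right (by
      have : 1 / ((j : ℝ) + 1) ≤ 1 := by
        rw [div_le_one (by positivity)]; linarith [Nat.cast_nonneg (α := ℝ) j]
      linarith) (u0 j v))
  have bd : ∀ v, ∃ a b : ℝ, 0 < a ∧ ∀ j, u j v ∈ Set.Icc a b := by
    intro v
    obtain ⟨p⟩ := hc o v
    refine ⟨1 / (ρ + 1) ^ p.reverse.length, (ρ + 1) ^ p.length, by positivity, fun j => ⟨?_, ?_⟩⟩
    · have := u_walk G (by positivity) (u0 j) (hu' j) p.reverse
      rw [u1] at this
      rw [div_le_iff₀ (by positivity)]; linarith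
    · have := u_walk G (by positivity) (u0 j) (hu' j) p
      rwa [u1, mul_one] at this
  choose a b ha hab using bd
  choose f hf lim using fun v => ulim (fun j => u j v) (a v) (b v) (hab v)
  refine ⟨f, fun v => (ha v).trans_le (hf v).1, fun v => ?_⟩
  have t0 : Tendsto (fun j : ℕ => ρ + 1 / ((j : ℝ) + 1)) (hyperfilter ℕ) (𝓝 ρ) := by
    have := (tendsto_one_div_add_atTop_nhds_zero_nat (𝕜 := ℝ)).const_add ρ
    rw [add_zero] at this
    exact this.mono_left Nat.hyperfilter_le_atTop
  exact le_of_tendsto_of_tendsto' (tendsto_finsetSum _ fun w _ => lim w) (t0.mul (lim v))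
    fun j => hu j v

lemma card_erase {q : ℕ} (hd : G.IsRegularOfDegree (q + 1)) {v w : V} (h : G.Adj v w) :
    ((G.neighborFinset w).erase v).card = q := by
  rw [card_erase_of_mem (by simpa using h.symm), card_neighborFinset_eq_degree, hd w]; rfl

lemma harnack {q : ℕ} (hd : G.IsRegularOfDegree (q + 1)) {r : ℝ} (hr : 0 < r) (hq : r ^ 2 = q)
    {f : V → ℝ} (f0 : ∀ v, 0 < f v) (hf : ∀ v, ∑ w ∈ G.neighborFinset v, f w ≤ 2 * r * f v)
    {v w : V} (h : G.Adj v w) : f v ≤ r * f w := by
  have key : ∀ k : ℕ, ∀ v w, G.Adj v w → k * f v ≤ (k + 1) * r * f w := by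
    intro k
    induction k with
    | zero => intro v w _; have := f0 w; simp; positivity
    | succ k ih =>
      intro v w h
      have h1 := hf w
      rw [← add_sum_erase _ _ (a := v) (by simpa using h.symm)] at h1
      have h2 : q • ((k : ℝ) * f w) ≤
          ∑ x ∈ (G.neighborFinset w).erase v, ((k : ℝ) + 1) * r * f x := by
        rw [← card_erase G hd h]
        exact card_nsmul_le_sum _ _ _ fun x hx => ih w x (by simpa using mem_of_mem_erase hx)
      rw [← mul_sum, nsmul_eq_mul, ← hq] at h2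
      push_cast
      have h3 : r * (k * f w) ≤ (k + 1) * ∑ x ∈ (G.neighborFinset w).erase v, f x := by
        apply le_of_mul_le_mul_left _ hr
        nlinarith
      have h4 : (0 : ℝ) ≤ k + 1 := by positivity
      nlinarith [mul_le_mul_of_nonneg_left h1 h4]
  by_contra hlt
  push Not at hlt
  obtain ⟨k, hk⟩ := exists_nat_gt (r * f w / (f v - r * f w))
  rw [div_lt_iff₀ (by linarith)] at hk
  nlinarith [key k v w h]

end Pool.Agent.H.MP_542002_pr
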