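import Pool.Agent.H.MP_542002_pr.A
set_option linter.unusedSectionVars false

namespace Pool.Agent.H.MP_542002_pr
open Finset Filter Topology SimpleGraph

variable {V : Type} [DecidableEq V] (G : SimpleGraph V) [G.LocallyFinite]

theorem degen {q : ℕ} (hd : G.IsRegularOfDegree (q + 1)) (q2 : 2 ≤ q) {r : ℝ} (hr : 0 < r)
    (hq : r ^ 2 = q) {f : V → ℝ} (f0 : ∀ v, 0 < f v)
    (hf : ∀ v, ∑ w ∈ G.neighborFinset v, f w ≤ 2 * r * f v) (p : V)
    (hB : ∀ o, ∃ a, G.Adj o a ∧ r * f o ≤ f a) :
    ∃ h : V → ℝ, (∃ C : ℝ, ∀ v, |h v| ≤ C) ∧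
      (∀ v, ((q + 1 : ℕ) : ℝ) * h v = ∑ w ∈ G.neighborFinset v, h w) ∧ ∃ x y, h x ≠ h y := by
  classical
  choose t ta tf using hB
  have q2' : (2 : ℝ) ≤ q := by exact_mod_cast q2
  have r1 : 1 < r := by nlinarith
  have ft : ∀ o, f (t o) = r * f o := fun o =>
    le_antisymm (harnack G hd hr hq f0 hf (ta o).symm) (tf o)
  have ch : ∀ o a, G.Adj o a → a ≠ t o → f o = r * f a := by
    intro o a h hne
    have h1 := hf o
    rw [← add_sum_erase _ _ (a := t o) (by simpa using ta o), ft] at h1
    have h2 : ∑ x ∈ (G.neighborFinset o).erase (t o), (r * f x - f o) ≤ 0 := by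
      rw [sum_sub_distrib, ← mul_sum, sum_const, card_erase G hd (ta o).symm, nsmul_eq_mul, ← hq]
      nlinarith
    have h3 : ∀ x ∈ (G.neighborFinset o).erase (t o), 0 ≤ r * f x - f o := fun x hx =>
      sub_nonneg.2 (harnack G hd hr hq f0 hf (by simpa using mem_of_mem_erase hx))
    have h4 := (sum_eq_zero_iff_of_nonneg h3).1 (le_antisymm h2 (sum_nonneg h3)) a (by simp [h, hne])
    linarith
  have tch : ∀ o a, G.Adj o a → a ≠ t o → t a = o := by
    intro o a h hne
    by_contra h2
    have h3 := ch a o h.symm (Ne.symm h2)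
    have h4 := ch o a h hne
    have := f0 a
    rw [h4, ← mul_assoc, ← sq, hq] at h3
    nlinarith
  have FF : ∀ v, ∑ w ∈ G.neighborFinset v, f w ^ 2 = (q + 1) * f v ^ 2 := by
    intro v
    rw [← add_sum_erase _ _ (a := t v) (by simpa using ta v), ft,
      sum_congr rfl (g := fun _ => f v ^ 2 / q), sum_const, card_erase G hd (ta v).symm,
      nsmul_eq_mul, mul_pow, hq]
    · field_simp
    · intro x hx
      rw [mem_erase, mem_neighborFinset] at hx
      rw [ch v x hx.2 hx.1, mul_pow, hq]; field_simp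
  have fit : ∀ k v, f (t^[k] v) = r ^ k * f v := by
    intro k v
    induction k with
    | zero => simp
    | succ k ih => rw [Function.iterate_succ_apply', ft, ih]; ring
  set g : V → V → ℝ := fun o v => if ∃ k, t^[k] v = o then 1 - f v ^ 2 / f p ^ 2 else 0 with hg
  have D1 : ∀ o v k, t^[k] v = o → f v ≤ f o := by
    intro o v k hk
    rw [← hk, fit]
    exact le_mul_of_one_le_left (f0 v).le (one_le_pow₀ r1.le)
  have D2 : ∀ o v k, t^[k] v = o → f v = f o → v = o := by
    intro o v k hk he
    rcases k with _ | k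
    · exact hk
    · rw [← hk, fit] at he
      have : 1 < r ^ (k + 1) := one_lt_pow₀ r1 (Nat.succ_ne_zero k)
      nlinarith [f0 v]
  have main : ∀ o, G.Adj p o → o ≠ t p → (∀ v, 0 ≤ g o v ∧ g o v ≤ 1) ∧ g o p = 0 ∧
      g o o = 1 - 1 / q ∧ (∑ w ∈ G.neighborFinset p, g o w = 1 - 1 / q) ∧
      ∀ v, v ≠ p → (q + 1) * g o v = ∑ w ∈ G.neighborFinset v, g o w := by
    intro o ha hne
    have fo := ch p o ha hne
    have top := tch p o ha hne
    have lt : f o < f p := by nlinarith [f0 o]
    have gp : g o p = 0 := by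
      simp only [hg]
      rw [if_neg]
      rintro ⟨k, hk⟩
      linarith [D1 o p k hk]
    have go : g o o = 1 - 1 / q := by
      simp only [hg]
      rw [if_pos ⟨0, rfl⟩, fo, mul_pow, hq]
      have := f0 o
      field_simp
    refine ⟨fun v => ?_, gp, go, ?_, fun v hv => ?_⟩
    · simp only [hg]
      split_ifs with h
      · obtain ⟨k, hk⟩ := h
        have h1 := D1 o v k hk
        have h2 : f v ^ 2 / f p ^ 2 ≤ 1 := by
          rw [div_le_one (pow_pos (f0 p) 2)]
          exact pow_le_pow_left₀ (f0 v).le (by linarith) 2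
        have h3 : 0 ≤ f v ^ 2 / f p ^ 2 := by positivity
        constructor <;> linarith
      · simp
    · rw [sum_eq_single_of_mem o (by simpa using ha), go]
      intro w hw hwo
      simp only [hg]
      rw [if_neg]
      rintro ⟨k, hk⟩
      by_cases h : w = t p
      · have := D1 o w k hk
        rw [h, ft] at this
        nlinarith [f0 p]
      · have := ch p w (by simpa using hw) h
        exact hwo (D2 o w k hk (mul_left_cancel₀ hr.ne' (this.symm.trans fo)))
    · by_cases hD : ∃ k, t^[k] v = o
      · rw [sum_congr rfl (g := fun w => 1 - f w ^ 2 / f p ^ 2), sum_sub_distrib, ← sum_div, FF,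
          sum_const, card_neighborFinset_eq_degree, hd v]
        · simp only [hg, if_pos hD, nsmul_eq_mul]; push_cast; ring
        · intro w hw
          obtain ⟨k, hk⟩ := hD
          by_cases h : w = t v
          · rcases k with _ | k
            · obtain rfl : v = o := hk
              rw [h, top, gp, div_self (pow_pos (f0 p) 2).ne', sub_self]
            · simp only [hg]
              rw [if_pos ⟨k, by rw [h]; exact hk⟩]
          · simp only [hg]
            rw [if_pos ⟨k + 1, by
              rw [Function.iterate_succ_apply, tch v w (by simpa using hw) h, hk]⟩]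
      · rw [sum_eq_zero]
        · simp only [hg, if_neg hD, mul_zero]
        · intro w hw
          simp only [hg]
          rw [if_neg]
          rintro ⟨k, hk⟩
          by_cases h : w = t v
          · exact hD ⟨k + 1, by rw [Function.iterate_succ_apply, ← h, hk]⟩
          · have h2 := tch v w (by simpa using hw) h
            rcases k with _ | k
            · obtain rfl : w = o := hk
              exact hv (h2.symm.trans top)
            · rw [Function.iterate_succ_apply, h2] at hk
              exact hD ⟨k, hk⟩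
  obtain ⟨a, ha, b, hb, hab⟩ := one_lt_card.1
    (show 1 < ((G.neighborFinset p).erase (t p)).card by rw [card_erase G hd (ta p).symm]; omega)
  rw [mem_erase, mem_neighborFinset] at ha hb
  obtain ⟨a1, a2, a3, a4, a5⟩ := main a ha.2 ha.1
  obtain ⟨b1, b2, b3, b4, b5⟩ := main b hb.2 hb.1
  refine ⟨fun v => g a v - g b v, ⟨1, fun v => ?_⟩, fun v => ?_, p, a, ?_⟩
  · rw [abs_le]; constructor <;> linarith [a1 v, b1 v]
  · rw [sum_sub_distrib]
    beta_reduce
    by_cases hv : v = p
    · rw [hv, a2, b2, a4, b4]; simp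
    · rw [← a5 v hv, ← b5 v hv]; push_cast; ring
  · have : g b a = 0 := by
      simp only [hg]
      rw [if_neg]
      rintro ⟨k, hk⟩
      exact hab (D2 b a k hk (mul_left_cancel₀ hr.ne'
        ((ch p a ha.2 ha.1).symm.trans (ch p b hb.2 hb.1))))
    simp only [a2, b2, a3, this]
    have : 1 / (q : ℝ) ≤ 1 / 2 := one_div_le_one_div_of_le (by norm_num) q2'
    intro h; linarith

lemma inf0 {q : ℕ} (hd : G.IsRegularOfDegree (q + 1)) (q2 : 2 ≤ q) {r : ℝ} (hr : 0 < r)
    (hq : r ^ 2 = q) {f : V → ℝ} (f0 : ∀ v, 0 < f v)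
    (hf : ∀ v, ∑ w ∈ G.neighborFinset v, f w ≤ 2 * r * f v) (o : V) (U : V → ℝ)
    (hU : ∀ v, v ≠ o → ∑ w ∈ (G.neighborFinset v).erase o, U w ≤ 2 * r * U v) (c : ℝ) (hc : 0 < c) :
    ∃ y, y ≠ o ∧ U y < c := by
  by_contra hne
  push Not at hne
  have q2' : (2 : ℝ) ≤ q := by exact_mod_cast q2
  have r1 : 1 < r := by nlinarith
  have lt : 2 * r < q + 1 := by nlinarith
  have fo := f0 o
  have key : ∀ n : ℕ, ∀ v, v ≠ o → c * ((q + 1) / (2 * r)) ^ n * (1 - f v / f o) ≤ U v := by
    intro n
    induction n with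
    | zero =>
      intro v hv
      have : 0 < f v / f o := div_pos (f0 v) fo
      nlinarith [hne v hv]
    | succ n ih =>
      intro v hv
      have h1 : ∑ w ∈ (G.neighborFinset v).erase o, c * ((q + 1) / (2 * r)) ^ n * (1 - f w / f o) ≤
          ∑ w ∈ (G.neighborFinset v).erase o, U w :=
        sum_le_sum fun w hw => ih w (ne_of_mem_erase hw)
      rw [sum_erase _ (by simp [fo.ne']), ← mul_sum, sum_sub_distrib, ← sum_div, sum_const,
        card_neighborFinset_eq_degree, hd v, nsmul_eq_mul] at h1
      have h2 : (∑ w ∈ G.neighborFinset v, f w) / f o ≤ (q + 1) * (f v / f o) := by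
        rw [← mul_div_assoc]
        apply div_le_div_of_nonneg_right _ fo.le
        nlinarith [hf v, f0 v]
      have h3 : 0 ≤ c * ((q + 1) / (2 * r)) ^ n := by positivity
      apply le_of_mul_le_mul_left _ (show 0 < 2 * r by positivity)
      have e : 2 * r * (c * ((q + 1) / (2 * r)) ^ (n + 1) * (1 - f v / f o)) =
          c * ((q + 1) / (2 * r)) ^ n * ((q + 1) - (q + 1) * (f v / f o)) := by
        rw [pow_succ]; field_simp
      rw [e]
      refine le_trans ?_ (h1.trans (hU v hv))
      apply mul_le_mul_of_nonneg_left _ h3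
      push_cast; linarith
  have ex : ∃ v, G.Adj o v ∧ f v < f o := by
    by_contra h
    push Not at h
    have := card_nsmul_le_sum (G.neighborFinset o) f (f o) fun x hx => h x (by simpa using hx)
    rw [card_neighborFinset_eq_degree, hd o, nsmul_eq_mul] at this
    push_cast at this
    nlinarith [hf o]
  obtain ⟨v, hv, hlt⟩ := ex
  have h1 : 0 < 1 - f v / f o := by rw [sub_pos, div_lt_one fo]; exact hlt
  obtain ⟨n, hn⟩ := pow_unbounded_of_one_lt (U v / (c * (1 - f v / f o)))
    (show (1 : ℝ) < (q + 1) / (2 * r) by rw [one_lt_div (by positivity)]; exact lt)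
  rw [div_lt_iff₀ (by positivity)] at hn
  nlinarith [key n v hv.ne']

end Pool.Agent.H.MP_542002_pr
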