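import Pool.Agent.H.MP_542002_pr.B
set_option linter.unusedSectionVars false

namespace Pool.Agent.H.MP_542002_pr
open Finset Filter Topology SimpleGraph

variable {V : Type} [DecidableEq V] (G : SimpleGraph V) [G.LocallyFinite]

def Bk (S : V → Finset V) : Module.End ℝ (V → V → ℝ) where
  toFun ψ := fun v w => ∑ x ∈ (S w).erase v, ψ w x
  map_add' a b := by ext v w; simp [sum_add_distrib]
  map_smul' c a := by ext v w; simp [mul_sum]

lemma Bk_apply (S : V → Finset V) (ψ : V → V → ℝ) (v w : V) :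
    Bk S ψ v w = ∑ x ∈ (S w).erase v, ψ w x := rfl

lemma Bk_succ (S : V → Finset V) (ψ : V → V → ℝ) (n : ℕ) (v w : V) :
    (Bk S ^ (n + 1)) ψ v w = ∑ x ∈ (S w).erase v, (Bk S ^ n) ψ w x := by
  rw [pow_succ']; rfl

lemma Bk_succ' (S : V → Finset V) (ψ : V → V → ℝ) (n : ℕ) :
    (Bk S ^ (n + 1)) ψ = (Bk S ^ n) (Bk S ψ) := by
  rw [pow_succ]; rfl

lemma Bk_nonneg (S : V → Finset V) {ψ : V → V → ℝ} (h : ∀ v w, 0 ≤ ψ v w) (n : ℕ) (v w : V) :
    0 ≤ (Bk S ^ n) ψ v w := by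
  induction n generalizing v w with
  | zero => exact h v w
  | succ n ih => rw [Bk_succ]; exact sum_nonneg fun x _ => ih _ _

def S (o w : V) : Finset V := (G.neighborFinset w).erase o

def Ed (o v w : V) : Prop := G.Adj v w ∧ v ≠ o ∧ w ≠ o

variable {G} in
lemma mem_S {o v w : V} : w ∈ S G o v ↔ G.Adj v w ∧ w ≠ o := by simp [S, and_comm]

variable {G} in
lemma Ed.next {o v w x : V} (h : Ed G o v w) (hx : x ∈ (S G o w).erase v) : Ed G o w x :=
  ⟨(mem_S.1 (mem_of_mem_erase hx)).1, h.2.2, (mem_S.1 (mem_of_mem_erase hx)).2⟩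

variable {G} in
lemma Ed.symm {o v w : V} (h : Ed G o v w) : Ed G o w v := ⟨h.1.symm, h.2.2, h.2.1⟩

variable {G} in
lemma Ed.mem {o v w : V} (h : Ed G o v w) : w ∈ S G o v := mem_S.2 ⟨h.1, h.2.2⟩

variable {G} in
lemma Ed.of {o v w : V} (hv : v ≠ o) (h : w ∈ S G o v) : Ed G o v w :=
  ⟨(mem_S.1 h).1, hv, (mem_S.1 h).2⟩

lemma mono (o : V) {ψ ψ' : V → V → ℝ} (h : ∀ v w, Ed G o v w → ψ v w ≤ ψ' v w) (n : ℕ) (v w : V)
    (e : Ed G o v w) : (Bk (S G o) ^ n) ψ v w ≤ (Bk (S G o) ^ n) ψ' v w := by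
  induction n generalizing v w with
  | zero => exact h v w e
  | succ n ih => rw [Bk_succ, Bk_succ]; exact sum_le_sum fun x hx => ih _ _ (e.next hx)

lemma congrE (o : V) {ψ ψ' : V → V → ℝ} (h : ∀ v w, Ed G o v w → ψ v w = ψ' v w) (n : ℕ) (v w : V)
    (e : Ed G o v w) : (Bk (S G o) ^ n) ψ v w = (Bk (S G o) ^ n) ψ' v w :=
  le_antisymm (mono G o (fun v w e => (h v w e).le) n v w e)
    (mono G o (fun v w e => (h v w e).ge) n v w e)

def L (o x : V) (n : ℕ) (ψ : V → V → ℝ) : ℝ := ∑ w ∈ S G o x, (Bk (S G o) ^ n) ψ x w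

lemma L_mono {o x : V} (hx : x ≠ o) {ψ ψ' : V → V → ℝ}
    (h : ∀ v w, Ed G o v w → ψ v w ≤ ψ' v w) (n : ℕ) : L G o x n ψ ≤ L G o x n ψ' :=
  sum_le_sum fun w hw => mono G o h n x w (Ed.of hx hw)

def Reach (o x : V) : ℕ → V → V → Prop
  | 0, v, w => v = x ∧ Ed G o v w
  | n + 1, w, z => Ed G o w z ∧ ∃ v, Reach o x n v w ∧ v ≠ z

lemma Reach.ed {o x : V} {n : ℕ} {v w : V} (h : Reach G o x n v w) : Ed G o v w := by
  cases n
  · exact h.2
  · exact h.1

lemma L_reach {o x : V} (hx : x ≠ o) (n : ℕ) {ψ ψ' : V → V → ℝ}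
    (h : ∀ v w, Reach G o x n v w → ψ v w ≤ ψ' v w) : L G o x n ψ ≤ L G o x n ψ' := by
  induction n generalizing ψ ψ' with
  | zero => exact sum_le_sum fun w hw => h x w ⟨rfl, Ed.of hx hw⟩
  | succ n ih =>
    simp only [L, Bk_succ']
    apply ih
    intro v w hr
    exact sum_le_sum fun z hz => h w z ⟨hr.ed.next hz, v, hr, (ne_of_mem_erase hz).symm⟩

def χ (y : V) : V → V → ℝ := fun _ w => if w = y then 1 else 0

def γ (o y : V) (n : ℕ) : V → V → ℝ := (Bk (S G o) ^ n) (χ y)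

def β (o y : V) (n : ℕ) : V → V → ℝ := fun v w => γ G o y n w v

lemma χ0 (y v w : V) : 0 ≤ χ y v w := by unfold χ; split_ifs <;> norm_num

lemma γ0 (o y : V) (n : ℕ) (v w : V) : 0 ≤ γ G o y n v w := Bk_nonneg _ (χ0 y) n v w

lemma γ_succ (o y : V) (n : ℕ) (v w : V) :
    γ G o y (n + 1) v w = ∑ x ∈ (S G o w).erase v, γ G o y n w x := Bk_succ _ _ _ _ _

lemma reach_β {o y : V} {n : ℕ} {v w : V} (h : Reach G o y n v w) : 1 ≤ β G o y n v w := by
  induction n generalizing v w with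
  | zero => simp [β, γ, χ, h.1]
  | succ n ih =>
    obtain ⟨-, u, hu, hne⟩ := h
    rw [β, γ_succ]
    exact (ih hu).trans (single_le_sum (f := fun x => γ G o y n v x) (fun x _ => γ0 G o y n v x)
      (mem_erase.2 ⟨hne, hu.ed.symm.mem⟩))

lemma card_S {q : ℕ} (hd : G.IsRegularOfDegree (q + 1)) {o v w : V} (e : G.Adj v w) :
    (((S G o w).erase v).card : ℝ) ≤ q := by
  rw [← card_erase G hd e]
  exact_mod_cast card_le_card (erase_subset_erase _ (erase_subset _ _))

def N (o x y : V) (n : ℕ) : ℝ := L G o x n (χ y)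

lemma N0 (o x y : V) (n : ℕ) : 0 ≤ N G o x y n := sum_nonneg fun w _ => γ0 G o y n x w

lemma L_γ (o x y : V) (n m : ℕ) : L G o x n (γ G o y m) = N G o x y (n + m) := by
  simp only [L, N, γ, pow_add]; rfl

def T (o x y : V) (n : ℕ) : ℝ := ∑ m ∈ range (n + 1), L G o x n (β G o y m)

lemma L_add (o x : V) (n : ℕ) (a b : V → V → ℝ) :
    L G o x n (a + b) = L G o x n a + L G o x n b := by simp [L, sum_add_distrib]

lemma L_smul (o x : V) (n : ℕ) (c : ℝ) (a : V → V → ℝ) :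
    L G o x n (c • a) = c * L G o x n a := by simp [L, mul_sum]

lemma L_sum (o x : V) (n : ℕ) (k : ℕ) (a : ℕ → V → V → ℝ) :
    L G o x n (∑ m ∈ range k, a m) = ∑ m ∈ range k, L G o x n (a m) := by
  simp only [L, map_sum, Finset.sum_apply]; exact sum_comm

lemma T_succ {q : ℕ} (hd : G.IsRegularOfDegree (q + 1)) {o x : V} (hx : x ≠ o) (y : V) (n : ℕ) :
    T G o x y (n + 1) ≤ q * T G o x y n + q * ∑ k ∈ range (2 * n + 2), N G o x y k := by
  have h0 : L G o x (n + 1) (β G o y 0) ≤ q * N G o x y n := by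
    rw [N, ← L_smul]
    simp only [L, Bk_succ']
    apply L_mono G hx
    intro v w e
    have : ∀ z, β G o y 0 w z = χ y v w := fun z => rfl
    simp only [Bk_apply, this, sum_const, nsmul_eq_mul, Pi.smul_apply, smul_eq_mul]
    exact mul_le_mul_of_nonneg_right (card_S G hd e.1) (χ0 _ _ _)
  have h1 : ∀ m, L G o x (n + 1) (β G o y (m + 1)) ≤
      q * (L G o x n (β G o y m) + N G o x y (n + (m + 1))) := by
    intro m
    rw [← L_γ, ← L_add, ← L_smul]
    simp only [L, Bk_succ']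
    apply L_mono G hx
    intro v w e
    simp only [Bk_apply, Pi.smul_apply, Pi.add_apply, smul_eq_mul, β, γ_succ]
    rw [add_sum_erase _ (fun z => γ G o y m w z) e.symm.mem]
    refine (sum_le_card_nsmul _ _ (∑ z ∈ S G o w, γ G o y m w z) fun z _ => ?_).trans ?_
    · exact sum_le_sum_of_subset_of_nonneg (erase_subset _ _) fun _ _ _ => γ0 G o y m _ _
    · rw [nsmul_eq_mul]
      exact mul_le_mul_of_nonneg_right (card_S G hd e.1) (sum_nonneg fun _ _ => γ0 G o y m _ _)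
  rw [T, sum_range_succ']
  have h2 := sum_le_sum fun m (_ : m ∈ range (n + 1)) => h1 m
  rw [← mul_sum, sum_add_distrib] at h2
  have h3 : ∑ k ∈ range (2 * n + 2), N G o x y k = ∑ k ∈ range n, N G o x y k +
      (∑ m ∈ range (n + 1), N G o x y (n + (m + 1)) + N G o x y n) := by
    rw [show 2 * n + 2 = n + (n + 1 + 1) by ring, sum_range_add, sum_range_succ' _ (n + 1)]
    rfl
  have h4 : 0 ≤ (q : ℝ) * ∑ k ∈ range n, N G o x y k :=
    mul_nonneg (Nat.cast_nonneg _) (sum_nonneg fun k _ => N0 G o x y k)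
  rw [h3, T]
  linarith

lemma T_le {q : ℕ} (hd : G.IsRegularOfDegree (q + 1)) (q2 : 2 ≤ q) {r : ℝ} (hr : 0 < r)
    (hq : r ^ 2 = q) {o x : V} (hx : x ≠ o) (y : V) (hxy : x ≠ y) (H : ℝ)
    (hH : ∀ K, ∑ k ∈ range K, N G o x y k / r ^ k ≤ H) (n : ℕ) :
    T G o x y n ≤ q ^ n * (2 * r * H) := by
  have q2' : (2 : ℝ) ≤ q := by exact_mod_cast q2
  have r1 : 1 < r := by nlinarith
  have key : T G o x y n + 2 * ∑ k ∈ range (2 * n), N G o x y k ≤
      q ^ n * (2 * r * ∑ k ∈ range (2 * n), N G o x y k / r ^ k) := by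
    induction n with
    | zero => simp [T, L, β, γ, χ, hxy]
    | succ n ih =>
      have h1 := T_succ G hd hx y n
      rw [show 2 * (n + 1) = 2 * n + 2 by ring]
      have e : (q : ℝ) ^ n = r ^ (2 * n) := by rw [pow_mul, hq]
      have a0 := N0 G o x y (2 * n)
      have a1 := N0 G o x y (2 * n + 1)
      have a2 : 0 ≤ ∑ k ∈ range (2 * n), N G o x y k := sum_nonneg fun k _ => N0 G o x y k
      simp only [sum_range_succ] at h1 ⊢
      have e0 : (q : ℝ) ^ n * (N G o x y (2 * n) / r ^ (2 * n)) = N G o x y (2 * n) := by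
        rw [e]; field_simp
      have e1 : (q : ℝ) ^ n * (r * (N G o x y (2 * n + 1) / r ^ (2 * n + 1))) =
          N G o x y (2 * n + 1) := by
        rw [e]; field_simp; ring
      have e2 : (q : ℝ) ^ (n + 1) * (2 * r * (∑ k ∈ range (2 * n), N G o x y k / r ^ k +
          N G o x y (2 * n) / r ^ (2 * n) + N G o x y (2 * n + 1) / r ^ (2 * n + 1))) =
          q * (q ^ n * (2 * r * ∑ k ∈ range (2 * n), N G o x y k / r ^ k) +
            2 * r * (q ^ n * (N G o x y (2 * n) / r ^ (2 * n))) +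
            2 * (q ^ n * (r * (N G o x y (2 * n + 1) / r ^ (2 * n + 1))))) := by ring
      rw [e2, e0, e1]
      have a3 := mul_le_mul_of_nonneg_left ih (show (0 : ℝ) ≤ q by positivity)
      have a4 : 0 ≤ q * ((r - 1) * N G o x y (2 * n)) := by
        have : 0 ≤ r - 1 := by linarith
        positivity
      nlinarith
  have a2 : 0 ≤ ∑ k ∈ range (2 * n), N G o x y k := sum_nonneg fun k _ => N0 G o x y k
  have := mul_le_mul_of_nonneg_left (hH (2 * n)) (show 0 ≤ (q : ℝ) ^ n * (2 * r) by positivity)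
  nlinarith

def δ (a b : V) : V → V → ℝ := fun v w => if v = a ∧ w = b then 1 else 0

lemma K_symm (o : V) (n : ℕ) {a b c d : V} (e1 : Ed G o a b) (e2 : Ed G o c d) :
    (Bk (S G o) ^ n) (δ c d) a b = (Bk (S G o) ^ n) (δ b a) d c := by
  induction n generalizing c d with
  | zero => simp [δ, eq_comm, and_comm]
  | succ n ih =>
    rw [Bk_succ', Bk_succ, congrE G o (ψ' := ∑ z ∈ (S G o c).erase d, δ z c) _ n a b e1, map_sum]
    · simp only [Finset.sum_apply]
      exact sum_congr rfl fun z hz => ih (e2.symm.next hz).symm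
    · intro v w e
      simp only [Bk_apply, Finset.sum_apply, δ]
      by_cases h : w = c
      · subst h
        have h1 := e.symm.mem
        have h2 := e2.mem
        simp [h1, h2, eq_comm]
      · simp [h]

lemma N_symm {o x y : V} (hx : x ≠ o) (hy : y ≠ o) (n : ℕ) : N G o x y n = N G o y x n := by
  have key : ∀ x y, x ≠ o → y ≠ o → N G o x y n =
      ∑ w ∈ S G o x, ∑ v ∈ S G o y, (Bk (S G o) ^ n) (δ v y) x w := by
    intro x y hx hy
    refine sum_congr rfl fun w hw => ?_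
    rw [congrE G o (ψ' := ∑ v ∈ S G o y, δ v y) _ n x w (Ed.of hx hw), map_sum]
    · simp only [Finset.sum_apply]
    · intro v w e
      simp only [Finset.sum_apply, δ, χ]
      by_cases h : w = y
      · subst h
        simp [e.symm.mem]
      · simp [h]
  rw [key x y hx hy, key y x hy hx, sum_comm]
  refine sum_congr rfl fun v hv => sum_congr rfl fun w hw => ?_
  exact K_symm G o n (Ed.of hx hw) (Ed.of hy hv).symm

end Pool.Agent.H.MP_542002_pr
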