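import Pool.Agent.H.MP_542002_pr.C
set_option linter.unusedSectionVars false

namespace Pool.Agent.H.MP_542002_pr
open Finset Filter Topology SimpleGraph

variable {V : Type} [DecidableEq V] (G : SimpleGraph V) [G.LocallyFinite]

structure Dat (q : ℕ) (r c : ℝ) (f : V → ℝ) (o : V) : Prop where
  hd : G.IsRegularOfDegree (q + 1)
  q2 : 2 ≤ q
  hr : 0 < r
  hq : r ^ 2 = q
  f0 : ∀ v, 0 < f v
  hf : ∀ v, ∑ w ∈ G.neighborFinset v, f w ≤ 2 * r * f v
  c0 : 0 ≤ c
  hc : ∀ a, G.Adj o a → 1 ≤ c * (f o - f a / r)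

noncomputable def φ (r : ℝ) (f : V → ℝ) : V → V → ℝ := fun v w => f w - f v / r

variable {G} {q : ℕ} {r c : ℝ} {f : V → ℝ} {o : V}

lemma Dat.r1 (D : Dat G q r c f o) : 1 < r := by
  have q2' : (2 : ℝ) ≤ q := by exact_mod_cast D.q2
  nlinarith [D.hr, D.hq]

lemma Dat.φ0 (D : Dat G q r c f o) {v w : V} (h : G.Adj v w) : 0 ≤ φ r f v w := by
  rw [φ, sub_nonneg, div_le_iff₀' D.hr]
  exact harnack G D.hd D.hr D.hq D.f0 D.hf h

lemma Dat.Bφ (D : Dat G q r c f o) {v w : V} (h : G.Adj v w) :
    ∑ x ∈ (G.neighborFinset w).erase v, φ r f w x ≤ r * φ r f v w := by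
  have h1 := D.hf w
  rw [← add_sum_erase _ _ (a := v) (by simpa using h.symm)] at h1
  simp only [φ]
  rw [sum_sub_distrib, sum_const, card_erase G D.hd h, nsmul_eq_mul, ← D.hq]
  have := D.hr
  have e1 : r ^ 2 * (f w / r) = r * f w := by field_simp
  have e2 : r * (f w - f v / r) = r * f w - f v := by field_simp
  linarith

lemma split (g : V → ℝ) (v w : V) : ∑ x ∈ (G.neighborFinset w).erase v, g x =
    ∑ x ∈ (S G o w).erase v, g x + if o ∈ (G.neighborFinset w).erase v then g o else 0 := by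
  rw [S, erase_right_comm]
  split_ifs with h
  · rw [sum_erase_add _ _ h]
  · rw [erase_eq_of_notMem h, add_zero]

lemma Dat.sum1 (D : Dat G q r c f o) {a : V} (ha : G.Adj o a) {v w : V} (e : Ed G o v w) :
    Summable fun k => γ G o a k v w / r ^ k := by
  have hr := D.hr
  have h0 : ∀ v w, Ed G o v w → (χ a + c • Bk (S G o) (φ r f)) v w ≤ ((c * r) • φ r f) v w := by
    intro v w e
    have h1 := D.Bφ e.1
    rw [split (o := o)] at h1
    simp only [Pi.add_apply, Pi.smul_apply, smul_eq_mul, Bk_apply, χ]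
    have h2 : (if w = a then 1 else 0) ≤
        c * if o ∈ (G.neighborFinset w).erase v then φ r f w o else 0 := by
      by_cases h : w = a
      · rw [if_pos h, if_pos (by simp [h, ha.symm, e.2.1.symm]), h]
        exact D.hc a ha
      · rw [if_neg h]
        apply mul_nonneg D.c0
        split_ifs with h3
        · exact D.φ0 (by simpa using mem_of_mem_erase h3)
        · exact le_rfl
    nlinarith [mul_le_mul_of_nonneg_left h1 D.c0]
  have h1 : ∀ K, ∑ k ∈ range K, γ G o a k v w / r ^ k +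
      c * r * (Bk (S G o) ^ K) (φ r f) v w / r ^ K ≤ c * r * φ r f v w := by
    intro K
    induction K with
    | zero => simp
    | succ K ih =>
      have := mono G o h0 K v w e
      simp only [map_add, map_smul, Pi.add_apply, Pi.smul_apply, smul_eq_mul, ← Bk_succ'] at this
      rw [sum_range_succ]
      refine le_trans ?_ ih
      have e1 : c * r * (Bk (S G o) ^ (K + 1)) (φ r f) v w / r ^ (K + 1) =
          c * (Bk (S G o) ^ (K + 1)) (φ r f) v w / r ^ K := by
        rw [pow_succ r]; field_simp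
      rw [add_assoc, e1, ← add_div]
      exact add_le_add le_rfl (div_le_div_of_nonneg_right this (by positivity))
  refine summable_of_sum_range_le (c := c * r * φ r f v w)
    (fun k => div_nonneg (γ0 G o a k v w) (by positivity)) fun K => ?_
  have h2 : 0 ≤ (Bk (S G o) ^ K) (φ r f) v w := by
    simpa using mono G o (ψ := 0) (fun v w e => D.φ0 e.1) K v w e
  have h3 : 0 ≤ c * r * (Bk (S G o) ^ K) (φ r f) v w / r ^ K := by
    have := D.c0
    positivity
  linarith [h1 K]

lemma sum2 (hr : 0 < r) {y z v w : V} (e' : Ed G o y z) (e : Ed G o v w)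
    (h : Summable fun k => γ G o z k v w / r ^ k) : Summable fun k => γ G o y k v w / r ^ k := by
  have h0 : ∀ v w, Ed G o v w →
      Bk (S G o) (χ y) v w ≤ (χ z + Bk (S G o) (Bk (S G o) (χ z))) v w := by
    intro v w _
    have h1 : ∀ x, χ y w x ≤ (if x = y then χ z v w else 0) + Bk (S G o) (χ z) w x := by
      intro x
      have h2 : 0 ≤ Bk (S G o) (χ z) w x := sum_nonneg fun _ _ => χ0 _ _ _
      by_cases hx : x = y
      · by_cases hw : w = z
        · simp only [χ, hx, hw, if_true] at h2 ⊢; linarith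
        · have := single_le_sum (f := fun u => χ z x u) (fun _ _ => χ0 _ _ _)
            (show z ∈ (S G o x).erase w from mem_erase.2 ⟨Ne.symm hw, hx ▸ e'.mem⟩)
          rw [Bk_apply]
          simp only [χ, hx, hw, if_true, if_false] at this ⊢
          linarith
      · simp only [χ, hx, if_false] at h2 ⊢; linarith
    rw [Pi.add_apply, Pi.add_apply, Bk_apply, Bk_apply]
    refine (sum_le_sum fun x _ => h1 x).trans ?_
    rw [sum_add_distrib, sum_ite_eq']
    split_ifs
    · exact le_rfl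
    · linarith [χ0 z v w]
  rw [← summable_nat_add_iff 1]
  refine Summable.of_nonneg_of_le (fun k => div_nonneg (γ0 G o _ _ _ _) (by positivity))
    (fun k => ?_) ((h.mul_left r⁻¹).add (((summable_nat_add_iff 2).2 h).mul_left r))
  have := mono G o h0 k v w e
  simp only [map_add, Pi.add_apply, ← Bk_succ'] at this
  have e1 : r⁻¹ * (γ G o z k v w / r ^ k) + r * (γ G o z (k + 2) v w / r ^ (k + 2)) =
      (γ G o z k v w + γ G o z (k + 2) v w) / r ^ (k + 1) := by field_simp; ring
  rw [e1]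
  exact div_le_div_of_nonneg_right this (by positivity)

lemma Dat.sum3 (D : Dat G q r c f o) (hc : G.Connected) {y : V} (hy : y ≠ o) {v w : V}
    (e : Ed G o v w) : Summable fun k => γ G o y k v w / r ^ k := by
  obtain ⟨p⟩ := hc y o
  have : ∀ (a b : V) (p : G.Walk a b), b = o → a ≠ o →
      Summable fun k => γ G o a k v w / r ^ k := by
    intro a b p
    induction p with
    | nil => intro h1 h2; exact absurd h1 h2
    | @cons a z b haz p ih =>
      intro h1 h2
      by_cases hz : z = o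
      · exact D.sum1 (hz ▸ haz.symm) e
      · exact sum2 D.hr ⟨haz, h2, hz⟩ e (ih h1 hz)
  exact this y o p rfl hy

lemma Dat.exU (D : Dat G q r c f o) (hc : G.Connected) {x : V} (hx : x ≠ o) :
    ∃ u : V → ℝ, (∀ v, v ≠ o → 0 ≤ u v) ∧ 1 ≤ u x ∧
      (∀ v, v ≠ o → ∑ w ∈ (G.neighborFinset v).erase o, u w ≤ 2 * r * u v) ∧
      ∀ y, y ≠ o → ∀ K, ∑ k ∈ range K, N G o y x k / r ^ k ≤ r * u y := by
  have hr := D.hr
  set Ψ : V → V → ℝ := fun v w => ∑' k, γ G o x k v w / r ^ k with hΨ
  have Ψ0 : ∀ v w, 0 ≤ Ψ v w := fun v w =>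
    tsum_nonneg fun k => div_nonneg (γ0 G o _ _ _ _) (by positivity)
  have Ψe : ∀ v w, Ed G o v w → Ψ v w = χ x v w + r⁻¹ * ∑ z ∈ (S G o w).erase v, Ψ w z := by
    intro v w e
    simp only [hΨ]
    rw [(D.sum3 hc hx e).tsum_eq_zero_add,
      ← Summable.tsum_finsetSum fun z hz => D.sum3 hc hx (e.next hz), ← tsum_mul_left]
    congr 1
    · simp [γ]
    · refine tsum_congr fun k => ?_
      rw [γ_succ, ← sum_div]; field_simp; ring
  set u : V → ℝ := fun y => χ x y y + r⁻¹ * ∑ z ∈ S G o y, Ψ y z with hu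
  have s0 : ∀ y, 0 ≤ ∑ z ∈ S G o y, Ψ y z := fun y => sum_nonneg fun _ _ => Ψ0 _ _
  have u0 : ∀ y, 0 ≤ u y := fun y => add_nonneg (χ0 _ _ _) (mul_nonneg (by positivity) (s0 y))
  have u1 : ∀ y, ∑ z ∈ S G o y, Ψ y z ≤ r * u y := by
    intro y
    simp only [hu]
    rw [mul_add, mul_inv_cancel_left₀ hr.ne']
    nlinarith [χ0 x y y]
  have ue : ∀ v w, Ed G o v w → u w = Ψ v w + r⁻¹ * Ψ w v := by
    intro v w e
    simp only [hu]
    rw [Ψe v w e, ← add_sum_erase _ _ e.symm.mem]
    have : χ x w w = χ x v w := rfl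
    rw [this]; ring
  refine ⟨u, fun v _ => u0 v, ?_, fun v hv => ?_, fun y hy K => ?_⟩
  · have : χ x x x = 1 := by simp [χ]
    simp only [hu, this]
    have := mul_nonneg (inv_pos.2 hr).le (s0 x)
    linarith
  · have h1 : ∀ w ∈ S G o v, u w = (1 - r⁻¹ ^ 2) * Ψ v w + r⁻¹ * u v := by
      intro w hw
      have e := Ed.of hv hw
      rw [ue v w e, ue w v e.symm]; ring
    change ∑ w ∈ S G o v, u w ≤ _
    rw [sum_congr rfl h1, sum_add_distrib, ← mul_sum, sum_const, nsmul_eq_mul]
    have h2 : ((S G o v).card : ℝ) ≤ r ^ 2 + 1 := by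
      rw [D.hq]
      have := card_le_card (erase_subset o (G.neighborFinset v))
      rw [card_neighborFinset_eq_degree, D.hd v] at this
      exact_mod_cast this
    have h3 : 0 ≤ 1 - r⁻¹ ^ 2 := by
      have : r⁻¹ ≤ 1 := inv_le_one_of_one_le₀ D.r1.le
      have : 0 < r⁻¹ := by positivity
      nlinarith
    have h4 := mul_le_mul_of_nonneg_left (u1 v) h3
    have h5 := mul_le_mul_of_nonneg_right h2 (mul_nonneg (inv_pos.2 hr).le (u0 v))
    have e : (1 - r⁻¹ ^ 2) * (r * u v) + (r ^ 2 + 1) * (r⁻¹ * u v) = 2 * r * u v := by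
      field_simp; ring
    linarith
  · refine le_trans ?_ (u1 y)
    simp only [N, L, sum_div]
    rw [sum_comm]
    refine sum_le_sum fun z hz => ?_
    exact (D.sum3 hc hx (Ed.of hy hz)).sum_le_tsum _
      fun k _ => div_nonneg (γ0 G o _ _ _ _) (by positivity)

lemma full_one (hd : G.IsRegularOfDegree (q + 1)) {ψ : V → V → ℝ} (n : ℕ) {v w : V}
    (h : G.Adj v w) : (Bk (fun v => G.neighborFinset v) ^ n) ψ v w +
      (Bk (fun v => G.neighborFinset v) ^ n) (1 - ψ) v w = q ^ n := by
  induction n generalizing v w with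
  | zero => simp
  | succ n ih =>
    rw [Bk_succ, Bk_succ, ← sum_add_distrib,
      sum_congr rfl fun x hx => ih (by simpa using mem_of_mem_erase hx), sum_const,
      card_erase G hd h, nsmul_eq_mul, pow_succ']

lemma full_le (hd : G.IsRegularOfDegree (q + 1)) {ψ : V → V → ℝ} (h1 : ∀ v w, ψ v w ≤ 1) (n : ℕ)
    {v w : V} (h : G.Adj v w) : (Bk (fun v => G.neighborFinset v) ^ n) ψ v w ≤ q ^ n := by
  have := Bk_nonneg (fun v => G.neighborFinset v) (ψ := 1 - ψ) (fun v w => by simpa using h1 v w) n v w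
  linarith [full_one hd (ψ := ψ) n h]

lemma Dat.kill (D : Dat G q r c f o) {ψ : V → V → ℝ} (h1 : ∀ v w, ψ v w ≤ 1) (n : ℕ)
    (x : V) : ∑ w ∈ G.neighborFinset x, (Bk (fun v => G.neighborFinset v) ^ n) ψ x w ≤
      L G o x n ψ + q ^ n * (c * (2 * r * f x)) := by
  have hr := D.hr
  have c0 := D.c0
  have rq : r ≤ q := by nlinarith [D.r1, D.hq]
  have ko : ∀ n w, G.Adj w o → (Bk (fun v => G.neighborFinset v) ^ n) ψ w o ≤ q ^ n * (c * φ r f w o) :=
    fun n w h => (full_le D.hd h1 n h).trans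
      (le_mul_of_one_le_right (by positivity) (D.hc w h.symm))
  have key : ∀ n v w, G.Adj v w → (Bk (fun v => G.neighborFinset v) ^ n) ψ v w ≤
      (Bk (S G o) ^ n) ψ v w + q ^ n * (c * φ r f v w) := by
    intro n
    induction n with
    | zero => intro v w h; simpa using mul_nonneg c0 (D.φ0 h)
    | succ n ih =>
      intro v w h
      rw [Bk_succ, Bk_succ, split (o := o)]
      have h2 := D.Bφ h
      rw [split (o := o)] at h2
      have h3 := sum_le_sum fun x (hx : x ∈ (S G o w).erase v) =>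
        ih w x (mem_S.1 (mem_of_mem_erase hx)).1
      rw [sum_add_distrib, ← mul_sum, ← mul_sum] at h3
      have h4 : (if o ∈ (G.neighborFinset w).erase v then (Bk (fun v => G.neighborFinset v) ^ n) ψ w o else 0) ≤
          q ^ n * (c * if o ∈ (G.neighborFinset w).erase v then φ r f w o else 0) := by
        split_ifs with h5
        · exact ko n w (by simpa using mem_of_mem_erase h5)
        · simp
      have h5 := mul_le_mul_of_nonneg_left
        (h2.trans (mul_le_mul_of_nonneg_right rq (D.φ0 h))) (show 0 ≤ (q : ℝ) ^ n * c by positivity)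
      rw [pow_succ (q : ℝ)]
      nlinarith
  have h2 : ∑ w ∈ G.neighborFinset x, (Bk (fun v => G.neighborFinset v) ^ n) ψ x w ≤
      L G o x n ψ + ∑ w ∈ G.neighborFinset x, q ^ n * (c * φ r f x w) := by
    have h3 := sum_le_sum fun w (hw : w ∈ S G o x) => key n x w (mem_S.1 hw).1
    rw [sum_add_distrib] at h3
    by_cases h : o ∈ G.neighborFinset x
    · rw [← sum_erase_add _ _ h, ← sum_erase_add _ _ h]
      have := ko n x (by simpa using h)
      simp only [L, S] at h3 ⊢
      linarith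
    · simp only [L, S, erase_eq_of_notMem h] at h3 ⊢
      simpa only [S, erase_eq_of_notMem h] using h3
  refine h2.trans (add_le_add le_rfl ?_)
  rw [← mul_sum, ← mul_sum]
  gcongr
  refine le_trans (sum_le_sum fun w _ => ?_) (D.hf x)
  have := div_pos (D.f0 x) hr
  simp only [φ]; linarith

lemma limit (hd : G.IsRegularOfDegree (q + 1)) (hq : 0 < q) {ψ : V → V → ℝ}
    (h0 : ∀ v w, 0 ≤ ψ v w) (h1 : ∀ v w, ψ v w ≤ 1) (x y : V) (a b : ℝ) (hab : a < b)
    (hx : ∀ n, ∑ w ∈ G.neighborFinset x, (Bk (fun v => G.neighborFinset v) ^ n) ψ x w ≤ q ^ n * a)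
    (hy : ∀ n, q ^ n * b ≤ ∑ w ∈ G.neighborFinset y, (Bk (fun v => G.neighborFinset v) ^ n) ψ y w) :
    ∃ h : V → ℝ, (∃ C : ℝ, ∀ v, |h v| ≤ C) ∧
      (∀ v, ((q + 1 : ℕ) : ℝ) * h v = ∑ w ∈ G.neighborFinset v, h w) ∧ ∃ x y, h x ≠ h y := by
  classical
  have qp : (0 : ℝ) < q := by exact_mod_cast hq
  set p : ℕ → V → V → ℝ := fun n v w => (Bk (fun v => G.neighborFinset v) ^ n) ψ v w / q ^ n
    with hp
  have p01 : ∀ n v w, G.Adj v w → p n v w ∈ Set.Icc (0 : ℝ) 1 := fun n v w h =>
    ⟨div_nonneg (Bk_nonneg _ h0 n v w) (by positivity),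
      (div_le_one (by positivity)).2 (full_le hd h1 n h)⟩
  have ps : ∀ n v w, ∑ z ∈ (G.neighborFinset w).erase v, p n w z = q * p (n + 1) v w := by
    intro n v w
    simp only [hp]
    rw [Bk_succ, ← sum_div, pow_succ]; field_simp
  set c : ℕ → V → V → ℝ := fun K v w => (∑ n ∈ range (K + 1), p n v w) / (K + 1) with hc
  have ex : ∀ v w, ∃ l ∈ Set.Icc (0 : ℝ) 1, G.Adj v w →
      Tendsto (fun K => c K v w) (hyperfilter ℕ) (𝓝 l) := by
    intro v w
    by_cases h : G.Adj v w
    · obtain ⟨l, h2, h3⟩ := ulim (fun K => c K v w) 0 1 fun K =>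
        ⟨div_nonneg (sum_nonneg fun n _ => (p01 n v w h).1) (by positivity), by
          rw [div_le_one (by positivity)]
          simpa using sum_le_card_nsmul (range (K + 1)) _ 1 fun n _ => (p01 n v w h).2⟩
      exact ⟨l, h2, fun _ => h3⟩
    · exact ⟨0, by simp, fun h' => absurd h' h⟩
  choose g g01 lim using ex
  have gh : ∀ v w, G.Adj v w → ∑ z ∈ (G.neighborFinset w).erase v, g w z = q * g v w := by
    intro v w h
    have t1 := tendsto_finsetSum ((G.neighborFinset w).erase v)
      fun z hz => lim w z (by simpa using mem_of_mem_erase hz)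
    have t2 : Tendsto (fun K : ℕ => (p (K + 1) v w - p 0 v w) / ((K : ℝ) + 1)) atTop (𝓝 0) := by
      refine squeeze_zero_norm (fun K => ?_) (tendsto_one_div_add_atTop_nhds_zero_nat (𝕜 := ℝ))
      rw [norm_div, Real.norm_of_nonneg (show (0 : ℝ) ≤ K + 1 by positivity)]
      gcongr
      have a1 := p01 (K + 1) v w h
      have a2 := p01 0 v w h
      rw [Real.norm_eq_abs, abs_le]
      constructor <;> linarith [a1.1, a1.2, a2.1, a2.2]
    have t3 := ((lim v w h).add (t2.mono_left Nat.hyperfilter_le_atTop)).const_mul (q : ℝ)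
    rw [add_zero] at t3
    refine tendsto_nhds_unique t1 (t3.congr fun K => ?_)
    simp only [hc]
    rw [← sum_div, sum_comm, sum_congr rfl fun n _ => ps n v w, ← mul_sum, ← add_div,
      mul_div_assoc]
    congr 2
    have := sum_range_succ' (fun n => p n v w) (K + 1)
    rw [sum_range_succ _ (K + 1)] at this
    linarith
  have tv : ∀ v, Tendsto (fun K => ∑ w ∈ G.neighborFinset v, c K v w) (hyperfilter ℕ)
      (𝓝 (∑ w ∈ G.neighborFinset v, g v w)) := fun v =>
    tendsto_finsetSum _ fun w hw => lim v w (by simpa using hw)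
  refine ⟨fun v => ∑ w ∈ G.neighborFinset v, g v w, ⟨(q + 1 : ℕ), fun v => ?_⟩, fun v => ?_,
    x, y, ?_⟩
  · rw [abs_of_nonneg (sum_nonneg fun w _ => (g01 v w).1)]
    simpa [hd v] using sum_le_card_nsmul (G.neighborFinset v) _ 1 fun w _ => (g01 v w).2
  · have e1 : ∀ w ∈ G.neighborFinset v, ∑ z ∈ G.neighborFinset w, g w z = g w v + q * g v w := by
      intro w hw
      rw [mem_neighborFinset] at hw
      rw [← gh v w hw, add_sum_erase _ _ (by simpa using hw.symm)]
    have e2 : ∀ w ∈ G.neighborFinset v,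
        q * g w v = ∑ z ∈ G.neighborFinset v, g v z - g v w := by
      intro w hw
      rw [← gh w v (by simpa using (G.mem_neighborFinset v w |>.1 hw).symm),
        ← add_sum_erase _ _ hw]; ring
    have e3 := sum_congr rfl e2
    rw [← mul_sum, sum_sub_distrib, sum_const, card_neighborFinset_eq_degree, hd v,
      nsmul_eq_mul] at e3
    rw [sum_congr rfl e1, sum_add_distrib, ← mul_sum]
    have e4 : ∑ w ∈ G.neighborFinset v, g w v = ∑ w ∈ G.neighborFinset v, g v w := by
      apply mul_left_cancel₀ qp.ne'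
      rw [e3]; push_cast; ring
    rw [e4]; push_cast; ring
  · have a1 : ∑ w ∈ G.neighborFinset x, g x w ≤ a := by
      refine le_of_tendsto' (tv x) fun K => ?_
      simp only [hc]
      rw [← sum_div, sum_comm, div_le_iff₀ (by positivity)]
      refine (sum_le_card_nsmul _ _ a fun n _ => ?_).trans (by simp [mul_comm])
      simp only [hp]
      rw [← sum_div, div_le_iff₀' (by positivity)]
      exact hx n
    have a2 : b ≤ ∑ w ∈ G.neighborFinset y, g y w := by
      refine ge_of_tendsto' (tv y) fun K => ?_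
      simp only [hc]
      rw [← sum_div, sum_comm, le_div_iff₀ (by positivity)]
      refine le_trans (by simp [mul_comm]) (card_nsmul_le_sum _ _ b fun n _ => ?_)
      simp only [hp]
      rw [← sum_div, le_div_iff₀' (by positivity)]
      exact hy n
    intro h
    simp only at h
    linarith

theorem Dat.main (D : Dat G q r c f o) (hc : G.Connected) :
    ∃ h : V → ℝ, (∃ C : ℝ, ∀ v, |h v| ≤ C) ∧
      (∀ v, ((q + 1 : ℕ) : ℝ) * h v = ∑ w ∈ G.neighborFinset v, h w) ∧ ∃ x y, h x ≠ h y := by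
  classical
  have hr := D.hr
  have r1 := D.r1
  have c0 := D.c0
  have q2' : (2 : ℝ) ≤ q := by exact_mod_cast D.q2
  set ε : ℝ := 1 / (2 * r ^ 2 + c * (2 * r)) with hε
  have ε0 : 0 < ε := by positivity
  have ε1 : ε * (2 * r ^ 2 + c * (2 * r)) = 1 := by rw [hε]; field_simp
  have fe : ∀ v, ∑ w ∈ (G.neighborFinset v).erase o, f w ≤ 2 * r * f v := fun v =>
    (sum_le_sum_of_subset_of_nonneg (erase_subset _ _) fun w _ _ => (D.f0 w).le).trans (D.hf v)
  obtain ⟨x, hx, fx⟩ := inf0 G D.hd D.q2 hr D.hq D.f0 D.hf o f (fun v _ => fe v) ε ε0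
  obtain ⟨u, u0, u1, u2, u3⟩ := D.exU hc hx
  obtain ⟨y, hy, fy⟩ := inf0 G D.hd D.q2 hr D.hq D.f0 D.hf o (fun v => u v + f v) (fun v hv => by
    rw [sum_add_distrib]; linarith [u2 v hv, fe v]) ε ε0
  have uy : u y ≤ ε := by linarith [D.f0 y]
  have fy' : f y ≤ ε := by linarith [u0 y hy]
  have hxy : x ≠ y := by
    rintro rfl
    have : 0 ≤ ε * (c * (2 * r)) := by positivity
    have : ε ≤ ε * r ^ 2 := le_mul_of_one_le_right ε0.le (by nlinarith)
    nlinarith
  have T1 := T_le G D.hd D.q2 hr D.hq hx y hxy (r * u y) fun K => by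
    simpa only [N_symm G hx hy] using u3 y hy K
  have T2 := T_le G D.hd D.q2 hr D.hq hy x hxy.symm (r * u y) (u3 y hy)
  set ψ : V → V → ℝ := fun v w =>
    if ∃ m, Reach G o y m v w ∧ ∀ n < m, ¬ Reach G o x n v w then 1 else 0 with hψ
  have ψ0 : ∀ v w, 0 ≤ ψ v w := fun v w => by simp only [hψ]; split_ifs <;> norm_num
  have ψ1 : ∀ v w, ψ v w ≤ 1 := fun v w => by simp only [hψ]; split_ifs <;> norm_num
  have bs : ∀ z n m v w, m ≤ n → Reach G o z m v w → 1 ≤ (∑ k ∈ range (n + 1), β G o z k) v w := by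
    intro z n m v w hm h
    simp only [Finset.sum_apply]
    exact (reach_β G h).trans (single_le_sum (f := fun k => β G o z k v w)
      (fun k _ => γ0 G o z k w v) (mem_range.2 (by omega)))
  have bs0 : ∀ z n v w, 0 ≤ (∑ k ∈ range (n + 1), β G o z k) v w := by
    intro z n v w
    simp only [Finset.sum_apply]
    exact sum_nonneg fun k _ => γ0 G o z k w v
  have fin : ∀ s t : ℝ, s ≤ ε → t ≤ ε → 2 * r * (r * s) + c * (2 * r * t) ≤ 1 := by
    intro s t hs ht
    have a1 := mul_le_mul_of_nonneg_left hs (show 0 ≤ 2 * r ^ 2 by positivity)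
    have a2 := mul_le_mul_of_nonneg_left ht (show 0 ≤ c * (2 * r) by positivity)
    nlinarith
  refine limit D.hd (by have := D.q2; omega) ψ0 ψ1 x y 1 q (by linarith) (fun n => ?_) fun n => ?_
  · have h1 : L G o x n ψ ≤ T G o x y n := by
      rw [T, ← L_sum]
      refine L_reach G hx n fun v w h => ?_
      simp only [hψ]
      split_ifs with h2
      · obtain ⟨m, h3, h4⟩ := h2
        exact bs y n m v w (not_lt.1 fun h5 => h4 n h5 h) h3
      · exact bs0 _ _ _ _
    have h2 := D.kill ψ1 n x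
    have h3 := mul_le_mul_of_nonneg_left (fin _ _ uy fx.le) (show 0 ≤ (q : ℝ) ^ n by positivity)
    linarith [T1 n]
  · have h1 : L G o y n (1 - ψ) ≤ T G o y x n := by
      rw [T, ← L_sum]
      refine L_reach G hy n fun v w h => ?_
      simp only [hψ, Pi.sub_apply, Pi.one_apply]
      split_ifs with h2
      · simpa using bs0 x n v w
      · push Not at h2
        obtain ⟨m, h3, h4⟩ := h2 n h
        simpa using bs x n m v w h3.le h4
    have h2 := D.kill (ψ := 1 - ψ) (fun v w => by simpa using ψ0 v w) n y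
    have h3 := mul_le_mul_of_nonneg_left (fin _ _ uy fy') (show 0 ≤ (q : ℝ) ^ n by positivity)
    have h4 := sum_congr rfl fun w (hw : w ∈ G.neighborFinset y) =>
      full_one D.hd (ψ := ψ) n (G.mem_neighborFinset y w |>.1 hw)
    rw [sum_add_distrib, sum_const, card_neighborFinset_eq_degree, D.hd y, nsmul_eq_mul] at h4
    push_cast at h4
    linarith [T2 n]

end Pool.Agent.H.MP_542002_pr
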